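import Pool.Agent.R709.JP.Main

/-!
# Jordan paths in the maximal collection generated by the subpaths of a path

Let `Γ` be an admissible path in the plane, let `X` be its image and let `F` be the collection of
all subpaths of `Γ`. Then every Jordan path in `X` belongs to the maximal collection that is
generated by `F`.

Paths, subpaths, Jordan paths, admissible paths, the path integral (as a limit of
Riemann-Stieltjes sums), `F`-derivatives and the maximal collection are defined in
`Pool.Agent.R709.JP.Defs`, as in the problem.
-/

set_option autoImplicit false

namespace Pool.Agent.Results.MP_78c6b8_an.JordanPaths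

open Pool.Agent.R709.JP

/-- Every Jordan path in the image of an admissible path `Γ` belongs to the maximal collection
generated by the subpaths of `Γ`. -/
theorem result (Γ : Pth) (hΓ : Γ.Admissible) (γ : Pth) (hγ : γ.Jordan)
    (hX : γ.image ⊆ Γ.image) : γ ∈ maximalCollection Γ.image {σ | σ.IsSubpath Γ} :=
  jordan_mem Γ hΓ.1 γ hγ hX

end Pool.Agent.Results.MP_78c6b8_an.JordanPaths
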